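import Pool.Agent.Helper15.AF.Goals2
import Pool.Agent.Helper40.JT.STR
import Pool.Agent.Helper42.JT.CHN
import Pool.Agent.Helper39.JT.SMP
import Pool.Agent.Helper61.DT.DEPCNT

/-!
# Packet AF-GAP: most seeds of the chain are good for the tests in the first string
-/

set_option autoImplicit false

namespace Pool.Agent.Helper49.AF

open Pool.Agent.Helper51.ZP Pool.Agent.Helper78.DT Pool.Agent.Helper78.JT Pool.Agent.Helper15.AF
open scoped Classical

theorem bt_mod (m y i : ℕ) (h : i < m) : bt (y % 2 ^ m) i = bt y i := by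
  have e : 2 ^ m = 2 ^ i * 2 ^ (m - i) := by
    rw [← pow_add]
    congr 1
    omega
  unfold bt
  rw [e, Nat.mod_mul_right_div_self, Nat.mod_mod_of_dvd _ (dvd_pow_self 2 (by omega))]

theorem ip_mod (Y : ℕ → Bool) (m y j : ℕ) : ip Y m (y % 2 ^ m) j = ip Y m y j := by
  unfold ip
  have h : (List.range m).filter (fun i => bt (y % 2 ^ m) i && Y (j + i)) =
      (List.range m).filter (fun i => bt y i && Y (j + i)) := by
    refine List.filter_congr fun i hi => ?_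
    rw [bt_mod m y i (List.mem_range.1 hi)]
  rw [h]

theorem gap : Pool.Agent.Helper15.AF.GapStmt := by
  intro Y m P e q r ρ n t s D kV J l R d k M κ δ ε F a hP hq hJ hδ hε hM0 hM hj
  obtain ⟨hfin, hcard⟩ := Pool.Agent.Helper61.DT.cnt P t s
  let FF : Finset (DL (Fin P)) := hfin.toFinset
  have hF : ∀ g, g ∈ FF ↔ Wid t g ∧ g.length ≤ s := fun g => by
    rw [Set.Finite.mem_toFinset]; rfl
  have hFc : FF.card ≤ (2 * (2 * P + 1) ^ t + 1) ^ s := by
    rw [← Set.ncard_eq_toFinset_card _ hfin]; exact hcard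
  let I : Finset ((Fin P × (Fin ρ → ZMod 2)) × (Fin r → DL (Fin P))) :=
    Finset.univ ×ˢ (Fintype.piFinset fun _ : Fin r => FF)
  have hI : I.card = (P * 2 ^ ρ) * FF.card ^ r := by
    rw [Finset.card_product, Finset.card_univ, Fintype.card_prod, Fintype.card_fin,
      Fintype.card_fun, ZMod.card, Fintype.card_fin, Fintype.card_piFinset,
      Finset.prod_const, Finset.card_univ, Fintype.card_fin]
  let φ : (Fin P × (Fin ρ → ZMod 2)) × (Fin r → DL (Fin P)) → ℕ → Prop := fun i y =>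
    ts F t κ i.2 (fun j => hv P e (i.1.1 : ℕ) (a j)) i.1.2 fun u => ip Y m y u
  have hmain := Pool.Agent.Helper42.JT.chn Pool.Agent.Helper39.JT.smp R d k M q l δ ε hq hδ hε
    hM0 hM hj ((Fin P × (Fin ρ → ZMod 2)) × (Fin r → DL (Fin P))) I φ
  have hRl : 0 < R l := (hj l le_rfl).1.pos
  have hmod : ∀ i, |pr (fun y : Fin (R l) => φ i y) - pr (fun y : Fin (2 ^ m) => φ i y)| ≤
      (2 : ℝ) ^ m / R l := by
    intro i
    have h1 := Pool.Agent.Helper40.JT.pr_mod (N := 2 ^ m) (R := R l) (by positivity) hRl (φ i)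
    have h2 : pr (fun y : Fin (R l) => φ i ((y : ℕ) % 2 ^ m)) =
        pr (fun y : Fin (R l) => φ i (y : ℕ)) := by
      congr 1
      funext y
      have h3 : (fun u : Fin P => ip Y m ((y : ℕ) % 2 ^ m) u) = fun u : Fin P => ip Y m y u := by
        funext u
        exact ip_mod Y m y u
      show ts F t κ i.2 (fun j => hv P e (i.1.1 : ℕ) (a j)) i.1.2
          (fun u : Fin P => ip Y m ((y : ℕ) % 2 ^ m) u) =
        ts F t κ i.2 (fun j => hv P e (i.1.1 : ℕ) (a j)) i.1.2 fun u : Fin P => ip Y m y u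
      rw [h3]
    rw [h2] at h1
    push_cast at h1
    exact h1
  have h1 : pr (fun θ : Fin (Zl R d (l + 1)) =>
      ¬ GoodA Y m P e q t s κ ((l + 1) * δ + 2 ^ m / R l) F a
        fun i => ch R d θ i (l + 1)) ≤
      pr (fun θ : Fin (Zl R d (l + 1)) => ∃ i ∈ I, (l + 1) * δ <
      |pr (fun a : Fin q => φ i (ch R d θ a (l + 1))) - pr (fun y : Fin (R l) => φ i y)|) := by
    apply pr_mono
    intro θ hθ
    unfold GoodA at hθ
    push Not at hθ
    obtain ⟨w, hw, g, c, hg1, hg3⟩ := hθ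
    have hm : (((⟨w, hw⟩ : Fin P), c), g) ∈ I :=
      Finset.mem_product.mpr ⟨Finset.mem_univ _,
        Fintype.mem_piFinset.mpr fun j => (hF _).2 (hg1 j)⟩
    refine ⟨_, hm, ?_⟩
    have e1 := hmod ((⟨w, hw⟩, c), g)
    have e2 := abs_sub_le (pr (fun a : Fin q => φ ((⟨w, hw⟩, c), g) (ch R d θ a (l + 1))))
      (pr (fun y : Fin (R l) => φ ((⟨w, hw⟩, c), g) y))
      (pr (fun y : Fin (2 ^ m) => φ ((⟨w, hw⟩, c), g) y))
    have e3 : (l + 1) * δ + 2 ^ m / R l <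
        |pr (fun a : Fin q => φ ((⟨w, hw⟩, c), g) (ch R d θ a (l + 1))) -
          pr (fun y : Fin (2 ^ m) => φ ((⟨w, hw⟩, c), g) y)| := hg3
    linarith
  refine h1.trans (hmain.trans ?_)
  refine mul_le_mul_of_nonneg_left (mul_le_mul_of_nonneg_right ?_ hε) (by positivity)
  rw [hI]
  push_cast
  have h3 : (FF.card : ℝ) ^ r ≤ (2 * (2 * (P : ℝ) + 1) ^ t + 1) ^ (s * r) := by
    calc (FF.card : ℝ) ^ r ≤ ((((2 * (2 * P + 1) ^ t + 1) ^ s : ℕ) : ℝ)) ^ r :=
          pow_le_pow_left₀ (Nat.cast_nonneg _) (by exact_mod_cast hFc) r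
      _ = _ := by push_cast; rw [pow_mul]
  have h4 : (1 : ℝ) ≤ ((kV : ℝ) + 1) ^ D * J := by
    have h5 : (1 : ℝ) ≤ ((kV : ℝ) + 1) ^ D :=
      one_le_pow₀ (by linarith [(Nat.cast_nonneg kV : (0 : ℝ) ≤ kV)])
    have h6 : (1 : ℝ) ≤ J := by exact_mod_cast hJ
    nlinarith
  unfold errI
  have hX : (0 : ℝ) ≤ (2 * (2 * (P : ℝ) + 1) ^ t + 1) ^ (s * r) := by positivity
  calc (P : ℝ) * 2 ^ ρ * (FF.card : ℝ) ^ r
      ≤ (P : ℝ) * 2 ^ ρ * (2 * (2 * (P : ℝ) + 1) ^ t + 1) ^ (s * r) :=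
        mul_le_mul_of_nonneg_left h3 (by positivity)
    _ = (P : ℝ) * ((2 * (2 * (P : ℝ) + 1) ^ t + 1) ^ (s * r) * (2 ^ ρ * 1)) := by ring
    _ ≤ _ := by gcongr

end Pool.Agent.Helper49.AF
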